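import Mathlib
import Pool.Agent.N418.CZ.Stm

/-!
# The dimension of a sum of ideals in independent variables
-/

set_option autoImplicit false

open Module Finset Pool.Agent.N418.CZ

namespace Pool.Agent.N38.CZ

theorem finrank_map_of_left_inverse {E : Type} [AddCommGroup E] [Module ℝ E] (f g : E →ₗ[ℝ] E)
    (U : Submodule ℝ E) (h : ∀ v ∈ U, g (f v) = v) : finrank ℝ (U.map f) = finrank ℝ U := by
  rw [← LinearMap.range_domRestrict]
  refine LinearMap.finrank_range_of_inj fun a b hab => Subtype.ext ?_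
  rw [← h a a.2, ← h b b.2]
  exact congrArg g hab

theorem t_FREE : S_FREE := by
  intro E _ _ α β _ _ V d m B μ κ hV hB hdis hμ hκ hκμ hcom hμμ J
  have h1 : ∀ (J : Finset β) (S : Finset α), (∀ j ∈ J, B j ⊆ S) →
      (⨆ j ∈ J, (V (S \ B j)).map (μ j)) ≤ V S := by
    intro J S hJ
    refine iSup₂_le fun j hj => ?_
    rintro _ ⟨φ, hφ, rfl⟩
    exact hμ j S (hJ j hj) φ hφ
  suffices h2 : ∀ S, (∀ j ∈ J, B j ⊆ S) →
      (finrank ℝ (⨆ j ∈ J, (V (S \ B j)).map (μ j) : Submodule ℝ E) : ℝ) =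
        d S.card - w (fun n => (d n : ℝ)) m J.card S.card from
    fun S hS => ⟨h1 J S hS, h2 S hS⟩
  induction J using Finset.induction_on with
  | empty =>
    intro S _
    have h0 : (⨆ j ∈ (∅ : Finset β), (V (S \ B j)).map (μ j)) = ⊥ := by simp
    rw [h0, finrank_bot]
    simp [w]
  | insert j J hj ih =>
    intro S hS
    have hSj : B j ⊆ S := hS j (mem_insert_self j J)
    have hSJ : ∀ i ∈ J, B i ⊆ S := fun i hi => hS i (mem_insert_of_mem hi)
    have hne : ∀ i ∈ J, i ≠ j := fun i hi h => hj (h ▸ hi)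
    have hSJj : ∀ i ∈ J, B i ⊆ S \ B j := fun i hi =>
      subset_sdiff.2 ⟨hSJ i hi, hdis i j (hne i hi)⟩
    have hSjJ : ∀ i ∈ J, B j ⊆ S \ B i := fun i hi =>
      subset_sdiff.2 ⟨hSj, hdis j i (hne i hi).symm⟩
    have hinv : ∀ v ∈ V (S \ B j), κ j (μ j v) = v := fun v hv =>
      hκμ j (S \ B j) sdiff_disjoint v hv
    have hU2 := h1 J (S \ B j) hSJj
    have hfV := fun S => (hV S).1
    have f1 : FiniteDimensional ℝ (⨆ i ∈ J, (V (S \ B i)).map (μ i) : Submodule ℝ E) :=
      Submodule.finiteDimensional_of_le (h1 J S hSJ)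
    have f2 : FiniteDimensional ℝ ((V (S \ B j)).map (μ j)) := inferInstance
    have hinf : (V (S \ B j)).map (μ j) ⊓ (⨆ i ∈ J, (V (S \ B i)).map (μ i)) =
        (⨆ i ∈ J, (V ((S \ B j) \ B i)).map (μ i) : Submodule ℝ E).map (μ j) := by
      apply le_antisymm
      · rintro _ ⟨⟨v, hv, rfl⟩, hφ⟩
        have h4 : (⨆ i ∈ J, (V (S \ B i)).map (μ i) : Submodule ℝ E).map (κ j) ≤
            ⨆ i ∈ J, (V ((S \ B j) \ B i)).map (μ i) := by
          rw [Submodule.map_iSup]
          refine iSup_mono fun i => ?_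
          rw [Submodule.map_iSup]
          refine iSup_mono fun hi => ?_
          rintro _ ⟨_, ⟨v, hv, rfl⟩, rfl⟩
          rw [hcom i j (hne i hi)]
          refine ⟨κ j v, ?_, rfl⟩
          have := hκ j (S \ B i) (hSjJ i hi) v hv
          rwa [sdiff_right_comm] at this
        refine ⟨v, ?_, rfl⟩
        have := h4 ⟨_, hφ, rfl⟩
        rwa [hinv v hv] at this
      · refine le_inf (Submodule.map_mono hU2) ?_
        rw [Submodule.map_iSup]
        refine iSup_mono fun i => ?_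
        rw [Submodule.map_iSup]
        refine iSup_mono fun hi => ?_
        rintro _ ⟨_, ⟨v, hv, rfl⟩, rfl⟩
        rw [hμμ]
        refine ⟨μ j v, ?_, rfl⟩
        rw [SetLike.mem_coe, sdiff_right_comm] at hv
        exact hμ j (S \ B i) (hSjJ i hi) v hv
    have hdim := Submodule.finrank_sup_add_finrank_inf_eq ((V (S \ B j)).map (μ j))
      (⨆ i ∈ J, (V (S \ B i)).map (μ i))
    rw [hinf, finrank_map_of_left_inverse (μ j) (κ j) _ hinv,
      finrank_map_of_left_inverse (μ j) (κ j) _ (fun v hv => hinv v (hU2 hv)), (hV _).2] at hdim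
    have hc : (S \ B j).card = S.card - m := by rw [card_sdiff_of_subset hSj, hB j]
    have i1 := ih S hSJ
    have i2 := ih (S \ B j) hSJj
    rw [Finset.iSup_insert, card_insert_of_notMem hj]
    rw [hc] at hdim i2
    have hdim' : (finrank ℝ ((V (S \ B j)).map (μ j) ⊔ (⨆ i ∈ J, (V (S \ B i)).map (μ i)) :
        Submodule ℝ E) : ℝ) + (finrank ℝ (⨆ i ∈ J, (V ((S \ B j) \ B i)).map (μ i) :
        Submodule ℝ E) : ℝ) = (d (S.card - m) : ℝ) +
        (finrank ℝ (⨆ i ∈ J, (V (S \ B i)).map (μ i) : Submodule ℝ E) : ℝ) := by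
      exact_mod_cast hdim
    rw [i1, i2] at hdim'
    rw [w]
    linarith

end Pool.Agent.N38.CZ
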